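import Pool.Agent.Helper97.TN.St2

/-!
# BC+ module B0: Frobenius elements exist
-/

set_option autoImplicit false

namespace Pool.Agent.Helper86.TN

open NumberField IsDedekindDomain Polynomial Filter Topology
open Pool.Agent.Helper97.TN Pool.Agent.Helper95.TT Pool.Agent.Helper96.BC

theorem frob_exists (k L : Type) [Field k] [NumberField k] [Field L] [NumberField L] [Algebra k L]
    [IsGalois k L] (v : Pr k) : ∃ g : L ≃ₐ[k] L, IsFrob v g := by
  classical
  have hinj : Function.Injective (algebraMap (𝓞 k) (𝓞 L)) :=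
    FaithfulSMul.algebraMap_injective (𝓞 k) (𝓞 L)
  -- a prime of `L` above `v`
  obtain ⟨V, -, hVp, hV⟩ := Ideal.exists_ideal_over_prime_of_isIntegral
    (S := 𝓞 L) v.asIdeal (⊥ : Ideal (𝓞 L)) (by
      intro x hx
      have hx0 : algebraMap (𝓞 k) (𝓞 L) x = 0 := by simpa using hx
      have : x = 0 := hinj (by rw [hx0, map_zero])
      rw [this]; exact v.asIdeal.zero_mem)
  have hVne : V ≠ ⊥ := by
    intro h
    apply v.ne_bot
    rw [← hV, h, eq_bot_iff]
    intro x hx
    have hx0 : algebraMap (𝓞 k) (𝓞 L) x = 0 := by simpa using hx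
    exact (Submodule.mem_bot _).2 (hinj (by rw [hx0, map_zero]))
  have : Finite (𝓞 L ⧸ V) := Ideal.finiteQuotientOfFreeOfNeBot V hVne
  obtain ⟨g, hg⟩ := IsArithFrobAt.exists_of_isInvariant (𝓞 k) (L ≃ₐ[k] L) V
  refine ⟨g, ⟨V, hVp, hVne⟩, ?_, ?_⟩
  · intro x
    show algebraMap (𝓞 k) (𝓞 L) x ∈ V ↔ _
    rw [← hV, Ideal.mem_comap]
  · intro x y hxy
    have h1 := hg x
    have h2 : (MulSemiringAction.toAlgHom (𝓞 k) (𝓞 L) g) x = y := by
      apply RingOfIntegers.ext
      rw [← hxy]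
      rfl
    have h3 : Nat.card (𝓞 k ⧸ V.under (𝓞 k)) = q v := by
      have : V.under (𝓞 k) = v.asIdeal := hV
      rw [this]
      rfl
    rw [h2, h3] at h1
    exact h1

theorem hB0 : StB0 := by
  intro k L _ _ _ _ _ _
  exact ⟨fun v => (frob_exists k L v).choose, fun v => (frob_exists k L v).choose_spec⟩

end Pool.Agent.Helper86.TN
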